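import Mathlib
import Pool.Agent.MP_36a0ac_al.H88.Main

set_option autoImplicit false
open Pool.Agent.MP_36a0ac_al

namespace Pool.Agent.Results.MP_36a0ac_al.CharTwo

/-- Over some field of characteristic two there is an infinite dimensional Lie algebra which is
not generated by a finite set and all of whose proper subalgebras are finite dimensional. -/
theorem result :
    ∃ (K : Type) (_ : Field K) (L : Type) (_ : LieRing L) (_ : LieAlgebra K L),
      CharP K 2 ∧ ¬ FiniteDimensional K L ∧
      (∀ S : Finset L, LieSubalgebra.lieSpan K L (S : Set L) ≠ ⊤) ∧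
      ∀ H : LieSubalgebra K L, H ≠ ⊤ → FiniteDimensional K H := by
  have hfg : ∀ S : Finset H88.L, LieSubalgebra.lieSpan H88.k H88.L (S : Set H88.L) ≠ ⊤ :=
    fun S hS => H88.not_fg ⟨S, S.finite_toSet, hS⟩
  refine ⟨H88.k, inferInstance, H88.L, inferInstance, inferInstance, ?_, ?_, hfg, H88.proper_fd⟩
  · have h2 : ((2 : ℕ) : H88.k) = 0 := by
      apply (algebraMap H88.k H88.K).injective
      rw [map_natCast, map_zero]
      have := H88.two_K 1
      push_cast
      linear_combination this
    haveI : Fact (Nat.Prime 2) := ⟨Nat.prime_two⟩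
    exact (CharP.charP_iff_prime_eq_zero Nat.prime_two).mpr h2
  · intro hfd
    obtain ⟨S, hS⟩ := (Module.finite_def.mp hfd)
    apply hfg S
    rw [eq_top_iff]
    intro x _
    have hx : x ∈ Submodule.span H88.k (S : Set H88.L) := hS ▸ Submodule.mem_top
    exact LieSubalgebra.submodule_span_le_lieSpan hx

end Pool.Agent.Results.MP_36a0ac_al.CharTwo
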